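import Pool.Agent.Helper21.LQ.Defs

set_option autoImplicit false

/-!
# LQ: second phase, the choice for the remaining edges of a star (ST_MAIN)
-/

namespace Pool.Agent.Helper21.LQ

open Finset

section main_aux
variable {R Γ : Type} [Fintype R] [DecidableEq R] [Fintype Γ] [DecidableEq Γ]

/-- The capacities (before the factor `1 + ε/4`). -/
noncomputable def main_w (E : Finset R) (D : ℝ) (L' : R → Finset Γ) (X : R → Γ → ℝ) :
    R → Γ → ℝ :=
  fun r γ => if r ∈ E ∧ γ ∈ L' r then X r γ / D else 0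

theorem main_full_nn {ε : ℝ} {N : Finset R} {D : ℕ} {L : R → Finset Γ} {γ : Γ}
    (h : γ ∈ Full ε N D L) : (1 - ε ^ 2 / 64) * D ≤ (nn N L γ : ℝ) := by
  unfold Full at h
  split_ifs at h with h1
  · simp at h
  · simpa using h

theorem main_full_empty {ε : ℝ} {N : Finset R} {D : ℕ} {L : R → Finset Γ}
    (h : (N.card : ℝ) < (1 - ε ^ 2 / 1024) * D) : Full ε N D L = ∅ := by
  unfold Full
  rw [if_pos h]

theorem main_not_full {ε : ℝ} {N : Finset R} {D : ℕ} {L : R → Finset Γ} {γ : Γ}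
    (h : ¬ (N.card : ℝ) < (1 - ε ^ 2 / 1024) * D) (hγ : γ ∉ Full ε N D L) :
    (nn N L γ : ℝ) < (1 - ε ^ 2 / 64) * D := by
  unfold Full at hγ
  rw [if_neg h] at hγ
  simpa using hγ

theorem main_hh_le {ε : ℝ} {N : Finset R} {D : ℕ} {L : R → Finset Γ} (hε : 0 < ε) :
    (hh ε N D L : ℝ) ≤ ε ^ 3 / 2 ^ 17 * D := by
  unfold hh
  split_ifs with h
  · obtain ⟨_, h2, h3⟩ := h
    rw [Nat.cast_sub h2.le]
    exact h3.le
  · simp only [Nat.cast_zero]
    positivity

theorem main_nn_le {N : Finset R} {L : R → Finset Γ} (γ : Γ) : nn N L γ ≤ N.card :=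
  card_filter_le _ _

theorem main_nn_sum {N : Finset R} {L : R → Finset Γ} {D : ℕ} (hL : ∀ r ∈ N, (L r).card = D) :
    ∑ γ, nn N L γ = N.card * D := by
  unfold nn
  have h1 : ∀ γ : Γ, (N.filter (fun r => γ ∈ L r)).card = ∑ r ∈ N, if γ ∈ L r then 1 else 0 := by
    intro γ
    rw [card_filter]
  simp only [h1]
  rw [sum_comm]
  have h2 : ∀ r ∈ N, ∑ γ : Γ, (if γ ∈ L r then 1 else 0) = D := by
    intro r hr
    rw [← hL r hr, sum_boole]
    simp
  rw [sum_congr rfl h2]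
  simp

theorem main_full_card {ε : ℝ} {N : Finset R} {D : ℕ} {L : R → Finset Γ} (hε : 0 < ε)
    (hε1 : ε ≤ 1) (hD : (0 : ℝ) < D) (hN : N.card ≤ D) (hL : ∀ r ∈ N, (L r).card = D) :
    ((Full ε N D L).card : ℝ) ≤ 2 * D := by
  have h1 : ((Full ε N D L).card : ℝ) * ((1 - ε ^ 2 / 64) * D) ≤ ∑ γ, (nn N L γ : ℝ) := by
    calc ((Full ε N D L).card : ℝ) * ((1 - ε ^ 2 / 64) * D)
        = ∑ γ ∈ Full ε N D L, (1 - ε ^ 2 / 64) * (D : ℝ) := by
          rw [sum_const, nsmul_eq_mul]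
      _ ≤ ∑ γ ∈ Full ε N D L, (nn N L γ : ℝ) := sum_le_sum (fun γ hγ => main_full_nn hγ)
      _ ≤ ∑ γ, (nn N L γ : ℝ) :=
          sum_le_sum_of_subset_of_nonneg (subset_univ _) (fun _ _ _ => by positivity)
  have h2 : ∑ γ, (nn N L γ : ℝ) = N.card * D := by
    exact_mod_cast main_nn_sum hL
  rw [h2] at h1
  have h3 : (N.card : ℝ) * D ≤ D * D := by
    have : (N.card : ℝ) ≤ D := by exact_mod_cast hN
    exact mul_le_mul_of_nonneg_right this hD.le
  have h4 : ((Full ε N D L).card : ℝ) * (1 - ε ^ 2 / 64) ≤ D := by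
    have h5 : ((Full ε N D L).card : ℝ) * (1 - ε ^ 2 / 64) * D ≤ D * D := by
      calc ((Full ε N D L).card : ℝ) * (1 - ε ^ 2 / 64) * D
          = ((Full ε N D L).card : ℝ) * ((1 - ε ^ 2 / 64) * D) := by ring
        _ ≤ _ := h1.trans h3
    exact le_of_mul_le_mul_right h5 hD
  have h6 : (0 : ℝ) ≤ ((Full ε N D L).card : ℝ) := by positivity
  have h7 : ε ^ 2 ≤ 1 := by nlinarith
  nlinarith

theorem main_xm {ε : ℝ} (hε : 0 < ε) (hε1 : ε ≤ 1) : 1 ≤ 2 / ε := by
  rw [le_div_iff₀ hε]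
  linarith

theorem main_dl_pos {ε : ℝ} (hε : 0 < ε) : 0 < dl ε := by
  unfold dl; positivity

/-- powers of `ε` are decreasing -/
theorem main_pow {ε : ℝ} (hε : 0 < ε) (hε1 : ε ≤ 1) (a b : ℕ) : ε ^ (a + b) ≤ ε ^ a :=
  pow_le_pow_of_le_one hε.le hε1 (Nat.le_add_right a b)

theorem main_dl_le {ε : ℝ} (hε : 0 < ε) (hε1 : ε ≤ 1) : dl ε ≤ ε ^ 2 / 2 ^ 68 := by
  unfold dl
  have := main_pow hε hε1 2 8
  gcongr

theorem main_row {N E : Finset R} {D : ℕ} {L L₀ : R → Finset Γ} {O : Finset Γ} {X : R → Γ → ℝ}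
    {Xm δ : ℝ} {h : ℕ} (hD : (0 : ℝ) < D) (hX : ∀ r γ, X r γ ≤ Xm) (hXm : 0 ≤ Xm)
    (hX0 : ∀ r γ, 0 ≤ X r γ)
    {r : R} (hr : r ∈ E) (hL₀ : (L₀ r).card ≤ h) (hO : O.card ≤ h)
    (hsum : (D : ℝ) - δ * D ≤ ∑ γ ∈ L r, X r γ) :
    1 - (δ + 2 * h * Xm / D) ≤ ∑ γ, main_w E D (fun r => L r \ (L₀ r ∪ O)) X r γ := by
  have h1 : ∑ γ, main_w E D (fun r => L r \ (L₀ r ∪ O)) X r γ =
      (∑ γ ∈ L r \ (L₀ r ∪ O), X r γ) / D := by
    unfold main_w
    simp only [hr, true_and]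
    rw [← sum_filter, sum_div]
    apply sum_congr _ (fun _ _ => rfl)
    ext γ
    simp
  have h2 : ∑ γ ∈ L r, X r γ ≤ (∑ γ ∈ L r \ (L₀ r ∪ O), X r γ) + ∑ γ ∈ L₀ r ∪ O, X r γ := by
    rw [← sum_union]
    · exact sum_le_sum_of_subset_of_nonneg (by intro x hx; by_cases h : x ∈ L₀ r ∪ O <;> simp_all)
        (fun _ _ _ => hX0 _ _)
    · exact sdiff_disjoint
  have h3 : ∑ γ ∈ L₀ r ∪ O, X r γ ≤ 2 * h * Xm := by
    calc ∑ γ ∈ L₀ r ∪ O, X r γ ≤ ∑ γ ∈ L₀ r ∪ O, Xm := sum_le_sum (fun γ _ => hX r γ)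
      _ = ((L₀ r ∪ O).card : ℝ) * Xm := by rw [sum_const, nsmul_eq_mul]
      _ ≤ 2 * h * Xm := by
        apply mul_le_mul_of_nonneg_right _ hXm
        have : (L₀ r ∪ O).card ≤ 2 * h := (card_union_le _ _).trans (by omega)
        exact_mod_cast this
  rw [h1, le_div_iff₀ hD]
  have h4 : (1 - (δ + 2 * h * Xm / D)) * D = D - δ * D - 2 * h * Xm := by
    field_simp
    ring
  rw [h4]
  linarith

theorem main_col_le {N E : Finset R} {D : ℝ} {L L' : R → Finset Γ} {X : R → Γ → ℝ}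
    (hD : 0 < D) (hEN : E ⊆ N) (hL' : ∀ r, L' r ⊆ L r) (hX0 : ∀ r γ, 0 ≤ X r γ) (γ : Γ) :
    ∑ r ∈ E, main_w E D L' X r γ ≤ colS N L X γ / D := by
  unfold main_w colS
  rw [sum_div, ← sum_filter]
  apply sum_le_sum_of_subset_of_nonneg
  · intro r hr
    simp only [mem_filter] at hr ⊢
    exact ⟨hEN hr.1, hL' r hr.2.2⟩
  · intro r _ _
    exact div_nonneg (hX0 _ _) hD.le

theorem main_col_ge {N P : Finset R} {D : ℝ} {L L' : R → Finset Γ} {X : R → Γ → ℝ} {Xm : ℝ}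
    {γ : Γ} (hD : 0 < D) (hPN : P ⊆ N) (hL' : ∀ r ∈ N, γ ∈ L r → γ ∈ L' r)
    (hX : ∀ r γ, X r γ ≤ Xm) (hXm : 0 ≤ Xm) (hX0 : ∀ r γ, 0 ≤ X r γ) :
    (colS N L X γ - P.card * Xm) / D ≤ ∑ r ∈ N \ P, main_w (N \ P) D L' X r γ := by
  have h1 : ∑ r ∈ (N \ P).filter (fun r => γ ∈ L r), X r γ / D ≤
      ∑ r ∈ N \ P, main_w (N \ P) D L' X r γ := by
    rw [sum_filter]
    apply sum_le_sum
    intro r hr
    unfold main_w
    by_cases h : γ ∈ L r
    · rw [if_pos h, if_pos ⟨hr, hL' r (mem_sdiff.1 hr).1 h⟩]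
    · rw [if_neg h]
      split_ifs
      · exact div_nonneg (hX0 _ _) hD.le
      · exact le_rfl
  refine le_trans ?_ h1
  rw [← sum_div]
  apply div_le_div_of_nonneg_right _ hD.le
  have h2 : colS N L X γ ≤ ∑ r ∈ (N \ P).filter (fun r => γ ∈ L r), X r γ + ∑ r ∈ P, X r γ := by
    unfold colS
    rw [← sum_union]
    · apply sum_le_sum_of_subset_of_nonneg _ (fun _ _ _ => hX0 _ _)
      intro r hr
      simp only [mem_filter, mem_union, mem_sdiff] at hr ⊢
      by_cases h : r ∈ P <;> simp_all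
    · rw [disjoint_left]
      intro r hr
      simp only [mem_filter, mem_sdiff] at hr
      exact hr.1.2
  have h3 : ∑ r ∈ P, X r γ ≤ P.card * Xm := by
    calc ∑ r ∈ P, X r γ ≤ ∑ r ∈ P, Xm := sum_le_sum (fun r _ => hX r γ)
      _ = P.card * Xm := by rw [sum_const, nsmul_eq_mul]
  linarith

/-- Sum over a rectangle inside the full colours. -/
theorem main_rect {N E : Finset R} {D : ℝ} {L L' : R → Finset Γ} {X : R → Γ → ℝ}
    {F : Finset Γ} (hEN : E ⊆ N) (hL' : ∀ r ∈ N, ∀ γ ∈ F, γ ∈ L' r ↔ γ ∈ L r)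
    {Z : Finset R} (hZ : Z ⊆ E) {G : Finset Γ} (hG : G ⊆ F) :
    ∑ r ∈ Z, ∑ γ ∈ G, main_w E D L' X r γ =
      ((∑ r ∈ Z, ∑ γ ∈ G, (if γ ∈ L r then (1 : ℝ) else 0)) +
        ∑ r ∈ Z, ∑ γ ∈ G, (if γ ∈ L r then X r γ - 1 else 0)) / D := by
  rw [← sum_add_distrib, sum_div]
  apply sum_congr rfl
  intro r hr
  rw [← sum_add_distrib, sum_div]
  apply sum_congr rfl
  intro γ hγ
  unfold main_w
  have h := hL' r (hEN (hZ hr)) γ (hG hγ)
  by_cases h1 : γ ∈ L r
  · rw [if_pos ⟨hZ hr, h.2 h1⟩, if_pos h1, if_pos h1]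
    congr 1
    ring
  · rw [if_neg (fun h2 => h1 (h.1 h2.2)), if_neg h1, if_neg h1]
    simp

theorem main_count_le {L : R → Finset Γ} (Z : Finset R) (G : Finset Γ) :
    ∑ r ∈ Z, ∑ γ ∈ G, (if γ ∈ L r then (1 : ℝ) else 0) ≤ (Z.card : ℝ) * G.card := by
  calc ∑ r ∈ Z, ∑ γ ∈ G, (if γ ∈ L r then (1 : ℝ) else 0)
      ≤ ∑ r ∈ Z, ∑ γ ∈ G, (1 : ℝ) := by
        apply sum_le_sum; intro r _; apply sum_le_sum; intro γ _
        split_ifs <;> norm_num
    _ = _ := by simp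

theorem main_count_ge {N : Finset R} {L : R → Finset Γ} {Z : Finset R} {G : Finset Γ} {a : ℝ}
    (hZ : Z ⊆ N) (hG : ∀ γ ∈ G, (N.card : ℝ) - a ≤ nn N L γ) :
    (Z.card : ℝ) * G.card - G.card * a ≤
      ∑ r ∈ Z, ∑ γ ∈ G, (if γ ∈ L r then (1 : ℝ) else 0) := by
  rw [sum_comm]
  have h1 : ∀ γ ∈ G, (Z.card : ℝ) - a ≤ ∑ r ∈ Z, (if γ ∈ L r then (1 : ℝ) else 0) := by
    intro γ hγ
    have h2 := hG γ hγ
    have h3 : (nn N L γ : ℝ) ≤ (∑ r ∈ Z, (if γ ∈ L r then (1 : ℝ) else 0)) +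
        ((N \ Z).card : ℝ) := by
      have h4 : (∑ r ∈ Z, (if γ ∈ L r then (1 : ℝ) else 0)) =
          ((Z.filter (fun r => γ ∈ L r)).card : ℝ) := by
        rw [sum_boole]
      rw [h4]
      have h5 : nn N L γ ≤ (Z.filter (fun r => γ ∈ L r)).card + (N \ Z).card := by
        unfold nn
        refine le_trans (card_le_card ?_) (card_union_le _ _)
        intro r hr
        simp only [mem_filter, mem_union, mem_sdiff] at hr ⊢
        by_cases h : r ∈ Z <;> simp_all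
      exact_mod_cast h5
    have h6 : ((N \ Z).card : ℝ) = N.card - Z.card := by
      rw [card_sdiff_of_subset hZ, Nat.cast_sub (card_le_card hZ)]
    rw [h6] at h3
    linarith
  calc (Z.card : ℝ) * G.card - G.card * a = ∑ γ ∈ G, ((Z.card : ℝ) - a) := by
        rw [sum_const, nsmul_eq_mul]; ring
    _ ≤ _ := sum_le_sum h1

/-- the distribution part -/
theorem main_dist (hPa : ST_PART) {E : Finset R} {y : R → Γ → ℝ} (hy0 : ∀ r γ, 0 ≤ y r γ)
    (hrow : ∀ r ∈ E, ∑ γ, y r γ = 1) (hoff : ∀ r ∉ E, ∀ γ, y r γ = 0)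
    (hcol : ∀ γ, ∑ r, y r γ ≤ 1) :
    ∃ p : (R → Option Γ) → ℝ, IsDist p ∧ Marg p y ∧ (∀ f, p f ≠ 0 → Inj f) ∧
      ∀ f, p f ≠ 0 → ∀ r, f r ≠ none ↔ r ∈ E := by
  have hrow' : ∀ r, ∑ γ, y r γ = if r ∈ E then 1 else 0 := by
    intro r
    split_ifs with h
    · exact hrow r h
    · exact sum_eq_zero (fun γ _ => hoff r h γ)
  obtain ⟨p, hp, hm, hi, hc⟩ := hPa R Γ y E.card hy0 (fun r => by
    rw [hrow']; split_ifs <;> norm_num) hcol (by
      simp only [hrow']
      rw [sum_boole]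
      simp)
  refine ⟨p, hp, hm, hi, fun f hf => ?_⟩
  have hsub : univ.filter (fun r => f r ≠ none) ⊆ E := by
    intro r hr
    simp only [mem_filter, mem_univ, true_and] at hr
    by_contra hE
    obtain ⟨γ, hγ⟩ := Option.ne_none_iff_exists'.1 hr
    have h1 := hm r γ
    rw [hoff r hE γ] at h1
    have h2 : p f ≤ ∑ f : R → Option Γ, (if f r = some γ then p f else 0) := by
      have h3 := single_le_sum (f := fun f : R → Option Γ => if f r = some γ then p f else 0)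
        (s := univ) (fun g _ => by
          show (0 : ℝ) ≤ if g r = some γ then p g else 0
          split_ifs
          · exact hp.1 g
          · exact le_rfl) (mem_univ f)
      simpa [hγ] using h3
    rw [h1] at h2
    exact hf (le_antisymm h2 (hp.1 f))
  have heq := eq_of_subset_of_card_le hsub (by rw [hc f hf])
  intro r
  rw [← heq]
  simp

end main_aux

theorem st_MAIN (hF : ST_FLOW) (hS : ST_STAR) (hDi : ST_DISC) (hPa : ST_PART) : ST_MAIN := by
  intro R Γ _ _ _ _ ε N P D L L₀ O X hε hε1 hN hL hlarge hPN hPc hOc hOF hL₀ hL₀c hX hrow hcol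
    hcov
  set F := Full ε N D L with hFdef
  set h := hh ε N D L with hhdef
  set E := N \ P with hEdef
  set L' : R → Finset Γ := fun r => L r \ (L₀ r ∪ O) with hL'def
  set Xm : ℝ := 2 / ε with hXmdef
  have hXm1 : 1 ≤ Xm := main_xm hε hε1
  have hdl := main_dl_pos hε
  have hdl2 := main_dl_le hε hε1
  have hε12 : ε ^ 12 ≤ 1 := pow_le_one₀ hε.le hε1
  have hD2 : (2 : ℝ) ^ 70 ≤ D := by
    have h0 : (0 : ℝ) ≤ D := by positivity
    nlinarith
  have hD : (0 : ℝ) < D := lt_of_lt_of_le (by norm_num) hD2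
  have hX0 : ∀ r γ, 0 ≤ X r γ := by
    intro r γ
    rcases hX r γ with h1 | h1
    · rw [h1]
    · linarith [h1.1]
  have hXle : ∀ r γ, X r γ ≤ Xm := by
    intro r γ
    rcases hX r γ with h1 | h1
    · rw [h1]; linarith
    · exact h1.2
  have hX1 : ∀ r γ, |X r γ - 1| ≤ Xm := by
    intro r γ
    rw [abs_le]
    rcases hX r γ with h1 | h1
    · rw [h1]; constructor <;> linarith
    · constructor <;> linarith [h1.1, h1.2]
  have hNR : (N.card : ℝ) ≤ D := by exact_mod_cast hN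
  have hEN : E ⊆ N := sdiff_subset
  have hhle : (h : ℝ) ≤ ε ^ 3 / 2 ^ 17 * D := main_hh_le hε
  have hh0 : (0 : ℝ) ≤ h := by positivity
  have hEc : (E.card : ℝ) = N.card - h := by
    rw [hEdef, card_sdiff_of_subset hPN, Nat.cast_sub (card_le_card hPN), hPc]
  -- membership in L' for full colours
  have hL'F : ∀ r ∈ N, ∀ γ ∈ F, γ ∈ L' r ↔ γ ∈ L r := by
    intro r hr γ hγ
    simp only [hL'def, mem_sdiff, mem_union, not_or]
    constructor
    · exact fun h1 => h1.1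
    · intro h1
      refine ⟨h1, ?_, ?_⟩
      · intro h2
        exact (mem_sdiff.1 (hL₀ r hr h2)).2 hγ
      · intro h2
        exact disjoint_left.1 hOF h2 hγ
  have hL'L : ∀ r, L' r ⊆ L r := fun r => sdiff_subset
  -- bounds on powers
  have hε2 : 0 < ε ^ 2 := by positivity
  have hε2' : ε ^ 2 ≤ 1 := pow_le_one₀ hε.le hε1
  have hε3 : ε ^ 3 * Xm = 2 * ε ^ 2 := by
    rw [hXmdef]; field_simp
  set δ₁ : ℝ := 2 * dl ε + 2 * h * Xm / D with hδ₁
  have hhX : (h : ℝ) * Xm / D ≤ ε ^ 2 / 2 ^ 16 := by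
    rw [div_le_iff₀ hD]
    calc (h : ℝ) * Xm ≤ ε ^ 3 / 2 ^ 17 * D * Xm :=
          mul_le_mul_of_nonneg_right hhle (by linarith)
      _ = (ε ^ 3 * Xm) * D / 2 ^ 17 := by ring
      _ = ε ^ 2 / 2 ^ 16 * D := by rw [hε3]; ring
  have hδ₁0 : 0 ≤ δ₁ := by positivity
  have hδ₁le : δ₁ ≤ ε ^ 2 / 2 ^ 14 := by
    have h1 : δ₁ = 2 * dl ε + 2 * (h * Xm / D) := by rw [hδ₁]; ring
    rw [h1]
    have h2 : ε ^ 2 / 2 ^ 68 ≤ ε ^ 2 / 2 ^ 16 := by gcongr <;> norm_num
    linarith [h2, hdl2, hhX, (by ring : ε ^ 2 / 2 ^ 14 = 4 * (ε ^ 2 / 2 ^ 16))]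
  have hdls : dl ε ≤ ε ^ 2 / 2 ^ 16 := hdl2.trans (by gcongr <;> norm_num)
  -- column sums
  have hcolD : ∀ γ, ∑ r ∈ E, main_w E D L' X r γ ≤ (nn N L γ : ℝ) / D + 2 * dl ε := by
    intro γ
    refine (main_col_le hD hEN hL'L hX0 γ).trans ?_
    have h1 := (abs_le.1 (hcol γ)).2
    rw [div_le_iff₀ hD, add_mul, div_mul_cancel₀ _ hD.ne']
    linarith
  have hnnD : ∀ γ, (nn N L γ : ℝ) ≤ D := by
    intro γ
    have h1 : (nn N L γ : ℝ) ≤ N.card := by exact_mod_cast main_nn_le γ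
    linarith
  have hFnn : ∀ γ ∈ F, (1 - ε ^ 2 / 64) * D ≤ (nn N L γ : ℝ) := fun γ hγ => main_full_nn hγ
  have hdisc : ∀ Z ⊆ E, ∀ G ⊆ F,
      |∑ r ∈ Z, ∑ γ ∈ G, (if γ ∈ L r then X r γ - 1 else 0)| ≤ ε ^ 5 / 2 ^ 32 * (D : ℝ) ^ 2 := by
    intro Z hZ G hG
    refine hDi R Γ N L X D Xm (2 * dl ε) (ε ^ 5 / 2 ^ 32) hD (by positivity) (by positivity)
      hNR hX1 hcov ?_ Z (hZ.trans hEN) G ?_
    · have h1 : 2 * Xm ^ 2 / D ≤ ε ^ 10 / 2 ^ 65 := by
        rw [div_le_iff₀ hD, hXmdef]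
        have h2 : 2 * (2 / ε) ^ 2 = 8 / ε ^ 2 := by
          field_simp
          norm_num
        rw [h2, div_le_iff₀ hε2]
        have h3 : ε ^ 10 / 2 ^ 65 * D * ε ^ 2 = ε ^ 12 * D / 2 ^ 65 := by ring
        rw [h3, le_div_iff₀ (by positivity)]
        refine le_trans ?_ hlarge
        norm_num
      have h2 : 4 * (2 * dl ε) = ε ^ 10 / 2 ^ 65 := by
        unfold dl; ring
      have h3 : (ε ^ 5 / 2 ^ 32) ^ 2 = ε ^ 10 / 2 ^ 65 + ε ^ 10 / 2 ^ 65 := by ring
      rw [h3, h2]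
      linarith
    · have h1 := main_full_card hε hε1 hD hN hL
      have h2 : (G.card : ℝ) ≤ (Full ε N D L).card := by exact_mod_cast card_le_card hG
      linarith
  have hcut : ∀ S ⊆ E, (S.card : ℝ) ≤
      ∑ γ, min 1 ((1 + ε / 4) * ∑ r ∈ S, main_w E D L' X r γ) := by
    apply hS R Γ E F (main_w E D L' X) D Xm (ε / 4) (ε ^ 2 / 64) (ε ^ 2 / 2048)
      (ε ^ 3 / 2 ^ 17) δ₁ (ε ^ 5 / 2 ^ 32) hD hXm1 (by positivity) (by nlinarith) (by linarith)
      (by linarith) hδ₁0 (by linarith [hδ₁le, (by ring : ε ^ 2 / 2 ^ 14 = ε ^ 2 / 2048 / 8)])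
      (by positivity)
    · -- 16 Xm δ₄ ≤ δ₀
      rw [hXmdef]
      have h1 : 16 * (2 / ε) * (ε ^ 5 / 2 ^ 32) = ε ^ 2 * ε ^ 2 / 2 ^ 27 := by
        field_simp
        norm_num
      rw [h1]
      nlinarith
    · rw [hXmdef]
      have h1 : 8 * (ε ^ 2 / 64) * (2 / ε) = ε / 4 := by
        field_simp
        norm_num
      rw [h1]
    · have : (E.card : ℝ) ≤ N.card := by exact_mod_cast card_le_card hEN
      linarith
    · intro r γ
      unfold main_w
      split_ifs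
      · exact ⟨div_nonneg (hX0 _ _) hD.le, div_le_div_of_nonneg_right (hXle _ _) hD.le⟩
      · exact ⟨le_rfl, by positivity⟩
    · intro r hr
      exact main_row (N := N) hD hXle (by linarith) hX0 hr (hL₀c r (hEN hr)) hOc
        (by linarith [(abs_le.1 (hrow r (hEN hr))).1])
    · intro γ hγ
      refine (hcolD γ).trans ?_
      have h1 : (nn N L γ : ℝ) / D ≤ 1 := by
        rw [div_le_one hD]
        exact hnnD γ
      have h2 : (0 : ℝ) ≤ 2 * h * Xm / D := by positivity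
      linarith
    · intro γ hγ
      refine le_trans ?_ (main_col_ge (L' := L') hD hPN
        (fun r hr h1 => (hL'F r hr γ hγ).2 h1) hXle (by linarith) hX0)
      rw [le_div_iff₀ hD, hPc]
      have h1 := (abs_le.1 (hcol γ)).1
      have h2 := hFnn γ hγ
      have h3 : (h : ℝ) * Xm ≤ ε ^ 2 / 2 ^ 16 * D := by
        rwa [div_le_iff₀ hD] at hhX
      have h4 : dl ε * D ≤ ε ^ 2 / 2 ^ 16 * D := mul_le_mul_of_nonneg_right hdls hD.le
      have h5 : 0 ≤ ε ^ 2 * D := by positivity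
      nlinarith
    · intro γ hγ
      refine (hcolD γ).trans ?_
      by_cases h0 : (N.card : ℝ) < (1 - ε ^ 2 / 1024) * D
      · have h1 : (nn N L γ : ℝ) / D ≤ 1 - ε ^ 2 / 1024 := by
          rw [div_le_iff₀ hD]
          have : (nn N L γ : ℝ) ≤ N.card := by exact_mod_cast main_nn_le γ
          linarith
        linarith
      · have h1 : (nn N L γ : ℝ) / D ≤ 1 - ε ^ 2 / 64 := by
          rw [div_le_iff₀ hD]
          exact (main_not_full h0 hγ).le
        linarith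
    · -- lower discrepancy
      intro Z hZ G hG
      rw [main_rect hEN hL'F hZ hG, le_div_iff₀ hD]
      have h1 := main_count_ge (a := ε ^ 2 / 64 * D) (L := L) (hZ.trans hEN) (G := G) (by
        intro γ hγ
        linarith [hFnn γ (hG hγ)])
      have h2 := (abs_le.1 (hdisc Z hZ G hG)).1
      have h3 : ((G.card : ℝ) * (Z.card / D - ε ^ 2 / 64) - ε ^ 5 / 2 ^ 32 * D) * D =
          (Z.card : ℝ) * G.card - G.card * (ε ^ 2 / 64 * D) - ε ^ 5 / 2 ^ 32 * D ^ 2 := by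
        field_simp
        try ring
      rw [h3]
      linarith
    · intro Z hZ G hG
      rw [main_rect hEN hL'F hZ hG, div_le_iff₀ hD]
      have h1 := main_count_le (L := L) Z G
      have h2 := (abs_le.1 (hdisc Z hZ G hG)).2
      have h3 : ((Z.card : ℝ) * G.card / D + ε ^ 5 / 2 ^ 32 * D) * D =
          (Z.card : ℝ) * G.card + ε ^ 5 / 2 ^ 32 * D ^ 2 := by
        field_simp
        try ring
      rw [h3]
      linarith
    · -- the alternative
      by_cases h0 : (N.card : ℝ) < (1 - ε ^ 2 / 1024) * D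
      · exact Or.inl (main_full_empty h0)
      · right
        by_cases h1 : N.card ≤ F.card
        · left
          exact (card_le_card hEN).trans h1
        · push Not at h1
          by_cases h2 : ((N.card : ℝ) - F.card) < ε ^ 3 / 2 ^ 17 * D
          · left
            have hP : IsP ε N D L := ⟨not_lt.1 h0, h1, h2⟩
            have h3 : h = N.card - F.card := by
              rw [hhdef]
              unfold hh
              rw [if_pos hP]
            have h4 : E.card = N.card - h := by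
              rw [hEdef, card_sdiff_of_subset hPN, hPc]
            omega
          · right
            have hP : ¬ IsP ε N D L := fun h3 => h2 h3.2.2
            have h3 : h = 0 := by
              rw [hhdef]
              unfold hh
              rw [if_neg hP]
            have h4 : δ₁ = 2 * dl ε := by
              rw [hδ₁, h3]
              simp
            push Not at h2 h0
            refine ⟨by linarith, ?_, ?_⟩
            · rw [hEc, h3]
              simp only [Nat.cast_zero, sub_zero]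
              nlinarith
            · rw [h4]
              have h5 : dl ε ≤ ε ^ 5 / 2 ^ 68 := by
                unfold dl
                have := main_pow hε hε1 5 5
                gcongr
              have h6 : (0 : ℝ) < ε ^ 5 := by positivity
              have h7 : ε ^ 2 / 2048 * (ε ^ 3 / 2 ^ 17) = ε ^ 5 / 2 ^ 28 := by ring
              rw [h7]
              nlinarith
  obtain ⟨y, hy, hyrow, hyoff, hycol⟩ := hF R Γ E
    (fun r γ => (1 + ε / 4) * main_w E D L' X r γ) (fun r γ => by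
      apply mul_nonneg (by positivity)
      unfold main_w
      split_ifs
      · exact div_nonneg (hX0 _ _) hD.le
      · exact le_rfl) (by
      intro S hSE
      refine (hcut S hSE).trans (le_of_eq ?_)
      apply sum_congr rfl
      intro γ _
      rw [mul_sum])
  obtain ⟨p, hp, hm, hi, hg⟩ := main_dist hPa (fun r γ => (hy r γ).1) hyrow hyoff hycol
  refine ⟨y, p, hp, hm, hi, ?_, fun r γ => (hy r γ).1, ?_, ?_⟩
  · intro f hf r
    rw [hg f hf r, hEdef, mem_sdiff]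
  · intro r γ
    refine (hy r γ).2.trans ?_
    unfold main_w
    split_ifs
    · rw [mul_div_assoc]
    · rw [mul_zero]
      exact div_nonneg (mul_nonneg (by positivity) (hX0 _ _)) hD.le
  · intro r γ hγ
    have h1 := hy r γ
    have h2 : main_w E D L' X r γ = 0 := by
      unfold main_w
      rw [if_neg]
      rintro ⟨h3, h4⟩
      apply hγ
      rw [if_pos (mem_sdiff.1 h3)]
      exact h4
    rw [h2, mul_zero] at h1
    exact le_antisymm h1.2 h1.1


end Pool.Agent.Helper21.LQ
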